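import Mathlib
import Pool.Agent.X20.FourAry

/-! `φ_4(S_{4,2^s m + 2^{s-1}}(n)) = φ_4(S_{4,2^{s-1}}(n))` for all `s ≥ 3`, `m, n ≥ 0`. -/

namespace Pool.Agent.Results.MP_c46995_nt.ShiftInvariant

open PowerSeries Pool.Agent.X20.FourAry

/-- For every `s ≥ 3` and all `m, n`, the exact power of `4` dividing `S_{4,2^s m+2^{s-1}}(n)`
equals the exact power of `4` dividing `S_{4,2^{s-1}}(n)`.  Both are finite since the numbers
are nonzero. `S t n` is the coefficient of `x^n` in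
`(1-x)^{-t} ∏_{i ≤ n} (1-x^{4^i})^{-3t}`. -/
theorem result : ∀ s m n : ℕ, 3 ≤ s →
    S (2 ^ s * m + 2 ^ (s - 1)) n ≠ 0 ∧ S (2 ^ (s - 1)) n ≠ 0 ∧
    emultiplicity (4 : ℤ) (S (2 ^ s * m + 2 ^ (s - 1)) n) =
      emultiplicity (4 : ℤ) (S (2 ^ (s - 1)) n) := by
  intro s m n hs
  obtain ⟨r, rfl⟩ : ∃ r, s = r + 3 := ⟨s - 3, by omega⟩
  have e1 : 2 ^ (r + 3) * m + 2 ^ (r + 3 - 1) = 4 * (2 ^ r * (2 * m + 1)) := by
    rw [show r + 3 - 1 = r + 2 from by omega, pow_add, pow_add]; ring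
  have e2 : 2 ^ (r + 3 - 1) = 4 * (2 ^ r * 1) := by
    rw [show r + 3 - 1 = r + 2 from by omega, pow_add]; ring
  rw [e1, e2]
  refine ⟨?_, ?_, S_emult r _ _ n (by omega) (by omega)⟩
  · rcases Nat.eq_zero_or_pos n with rfl | hn
    · rw [S_zero_right]; norm_num
    · exact S_ne_zero _ _ (dvd_mul_right _ _) (by positivity) (by omega)
  · rcases Nat.eq_zero_or_pos n with rfl | hn
    · rw [S_zero_right]; norm_num
    · exact S_ne_zero _ _ (dvd_mul_right _ _) (by positivity) (by omega)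

end Pool.Agent.Results.MP_c46995_nt.ShiftInvariant
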